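import Pool.Agent.Q78.WI.Stm

set_option autoImplicit false

/-! Project WI, job TD4: telescoping and dominated convergence. -/

open MeasureTheory ProbabilityTheory Filter Topology Set
open scoped NNReal

namespace Pool.Agent.Q223.WI

open Pool.Agent.Q78.WI

universe u v

theorem td4 (h2 : S_TD2.{v}) (h3 : S_TD3) : S_TD4.{v} := by
  intro Ω mΩ P hP ℱ τ R B C a c D
  set A : ℝ≥0 → ℝ := fun t =>
    ∫ ω, a ((min t (τ ω) : ℝ≥0) : ℝ) ((min t (τ ω) : ℝ≥0) : ℝ) ω ∂P with hA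
  have hstep : ∀ s t : ℝ≥0, s ≤ t → t ≤ R →
      Integrable (fun ω => J (τ ω) (fun x y => c x y ω) s t) P ∧
        A t - A s = ∫ ω, J (τ ω) (fun x y => c x y ω) s t ∂P :=
    fun s t hs ht => h2 Ω P ℱ τ R B C a c D s t hs ht
  have hR : (0 : ℝ) ≤ R := R.2
  -- the sums
  set F : ℕ → Ω → ℝ := fun n ω => ∑ k ∈ Finset.range (n + 1),
    J (τ ω) (fun x y => c x y ω) ((k : ℝ) * R / ((n + 1 : ℕ) : ℝ))
      (((k : ℝ) + 1) * R / ((n + 1 : ℕ) : ℝ)) with hF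
  have hpath : ∀ ω, (∀ N : ℕ, 0 < N → ∀ k < N,
      |J (τ ω) (fun x y => c x y ω) ((k : ℝ) * R / N) (((k : ℝ) + 1) * R / N)| ≤ 2 * C * (R / N)) ∧
      Tendsto (fun N : ℕ => ∑ k ∈ Finset.range N,
        J (τ ω) (fun x y => c x y ω) ((k : ℝ) * R / N) (((k : ℝ) + 1) * R / N)) atTop (𝓝 0) := by
    intro ω
    refine h3 R C (τ ω) (fun x y => c x y ω) hR (τ ω).2 D.C0 (D.cont ω) ?_
    intro h s hs t ht htau
    exact D.bddc ω (by exact_mod_cast h) s hs t ht htau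
  have hlim : ∀ ω, Tendsto (fun n => F n ω) atTop (𝓝 0) := fun ω =>
    ((hpath ω).2.comp (tendsto_add_atTop_nat 1))
  have hbd : ∀ n ω, ‖F n ω‖ ≤ 2 * C * R := by
    intro n ω
    have hn : (0 : ℝ) < ((n + 1 : ℕ) : ℝ) := by exact_mod_cast Nat.succ_pos n
    refine (norm_sum_le _ _).trans ?_
    have : ∀ k ∈ Finset.range (n + 1), ‖J (τ ω) (fun x y => c x y ω)
        ((k : ℝ) * R / ((n + 1 : ℕ) : ℝ)) (((k : ℝ) + 1) * R / ((n + 1 : ℕ) : ℝ))‖ ≤
        2 * C * (R / ((n + 1 : ℕ) : ℝ)) := by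
      intro k hk
      exact (hpath ω).1 (n + 1) (Nat.succ_pos n) k (Finset.mem_range.1 hk)
    refine (Finset.sum_le_sum this).trans ?_
    rw [Finset.sum_const, Finset.card_range, nsmul_eq_mul]
    apply le_of_eq
    field_simp
  have hint : ∀ n, Integrable (F n) P ∧ ∫ ω, F n ω ∂P = A R - A 0 := by
    intro n
    have hn : (0 : ℝ) < ((n + 1 : ℕ) : ℝ) := by exact_mod_cast Nat.succ_pos n
    have hk : ∀ k ∈ Finset.range (n + 1),
        Integrable (fun ω => J (τ ω) (fun x y => c x y ω) ((k : ℝ) * R / ((n + 1 : ℕ) : ℝ))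
          (((k : ℝ) + 1) * R / ((n + 1 : ℕ) : ℝ))) P ∧
        ∫ ω, J (τ ω) (fun x y => c x y ω) ((k : ℝ) * R / ((n + 1 : ℕ) : ℝ))
          (((k : ℝ) + 1) * R / ((n + 1 : ℕ) : ℝ)) ∂P =
        A (((k + 1 : ℕ) : ℝ≥0) * R / ((n + 1 : ℕ) : ℝ≥0)) -
          A ((k : ℝ≥0) * R / ((n + 1 : ℕ) : ℝ≥0)) := by
      intro k hk
      have hk' : k + 1 ≤ n + 1 := Finset.mem_range.1 hk
      have h := hstep ((k : ℝ≥0) * R / ((n + 1 : ℕ) : ℝ≥0))
        (((k + 1 : ℕ) : ℝ≥0) * R / ((n + 1 : ℕ) : ℝ≥0)) ?_ ?_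
      · have e1 : (((k : ℝ≥0) * R / ((n + 1 : ℕ) : ℝ≥0) : ℝ≥0) : ℝ) =
            (k : ℝ) * R / ((n + 1 : ℕ) : ℝ) := by push_cast; ring
        have e2 : ((((k + 1 : ℕ) : ℝ≥0) * R / ((n + 1 : ℕ) : ℝ≥0) : ℝ≥0) : ℝ) =
            ((k : ℝ) + 1) * R / ((n + 1 : ℕ) : ℝ) := by push_cast; ring
        rw [e1, e2] at h
        exact ⟨h.1, h.2.symm⟩
      · gcongr
        exact Nat.le_succ k
      · rw [← NNReal.coe_le_coe]
        push_cast
        have hk2 : (k : ℝ) + 1 ≤ (n : ℝ) + 1 := by exact_mod_cast hk'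
        rw [div_le_iff₀ (by positivity)]
        nlinarith
    refine ⟨?_, ?_⟩
    · exact integrable_finsetSum _ fun k hk' => (hk k hk').1
    · rw [hF]
      rw [integral_finsetSum _ fun k hk' => (hk k hk').1]
      rw [Finset.sum_congr rfl fun k hk' => (hk k hk').2]
      rw [Finset.sum_range_sub (fun k : ℕ => A ((k : ℝ≥0) * R / ((n + 1 : ℕ) : ℝ≥0)))]
      have e1 : ((n + 1 : ℕ) : ℝ≥0) * R / ((n + 1 : ℕ) : ℝ≥0) = R := by
        rw [mul_comm, mul_div_assoc, div_self (by positivity), mul_one]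
      rw [e1]
      simp
  have hconv : Tendsto (fun n => ∫ ω, F n ω ∂P) atTop (𝓝 (∫ _ω, (0 : ℝ) ∂P)) := by
    refine tendsto_integral_of_dominated_convergence (fun _ => 2 * C * R)
      (fun n => (hint n).1.aestronglyMeasurable) (integrable_const _)
      (fun n => Eventually.of_forall fun ω => hbd n ω)
      (Eventually.of_forall fun ω => hlim ω)
  rw [integral_zero] at hconv
  have hc : (fun n => ∫ ω, F n ω ∂P) = fun _ => A R - A 0 := funext fun n => (hint n).2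
  rw [hc] at hconv
  have h0 : A R - A 0 = 0 := tendsto_nhds_unique tendsto_const_nhds hconv
  have hA0 : A 0 = ∫ ω, a 0 0 ω ∂P := by
    rw [hA]; simp
  change A R = _
  rw [← hA0]
  linarith

end Pool.Agent.Q223.WI
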